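import Pool.Agent.L0h17.CP.Main

/-!
# The inequality of Campana and Peternell and covering families

Let `W` be a variety over a field `k` of characteristic zero which is covered by a family of varieties
`D_t`, `t` in `T` (the members may be singular in `W`, and any number of them may pass through a general
point). Let `D` be the generic member, a variety over the function field `Λ` of `T`. Let `A` be a divisor
on (a blow-up of) `W` such that `r K_W - A` is pseudo-effective, `r ≥ 1`.

**(1) Restriction.** The divisor `r K_D - A|_D` is pseudo-effective, and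
`κ(A) ≤ (dim W - dim D) + κ(A|_D)`.

**(2) Transfer.** If the inequality of Campana and Peternell holds for `D` (for all divisors on the
blow-ups of `D`), then `κ(A) ≤ (dim W - dim D) + κ(D)`. So if moreover
`κ(W) ≥ (dim W - dim D) + κ(D)`, the maximal value which is allowed by the easy addition, then the
inequality of Campana and Peternell holds for `W`.

**(3) Finite images.** Let `V ⇢ W` be a generically finite dominant rational map of complex varieties,
`A` a linear system on `V` which separates the points of its general fibre, and let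
`K_V - (2 + 1 / M) A` be effective for some `M`. If the inequality holds for `V` then it holds for `W`.

**(4) Images of products.** Let `Y × S ⇢ W` be any generically finite dominant rational map, and let
`κ(S) = ν(S)`, or let the inequality hold for `S` over the function field of `Y`. Then
`κ(A) ≤ dim Y + κ(S)` for all `A` as above; if `κ(S) = -∞` there is no such `A` with `κ(A) ≥ 0`.

**(5) Families of copies of `S`.** Let moreover `{y} × S ⇢ W` be birational to its image for general
`y`, let `A` be a linear system on `Y` which separates the points of `Y` below a general point of `W`,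
and let `K_Y - 2 A` be big. Then the inequality of Campana and Peternell holds for `W`.

**(6) Example.** Let `Y` be a smooth complete intersection of dimension `n` with `K_Y = O(m)`. Then the
condition in (5) is that the degree of `Y × S ⇢ W` is less than `(N + 1) (k + 2 - N)` for some `N`, `k`
with `2 k < m`, `7 N + 4 ≤ k` (and two mild conditions on the degrees and the dimension of the
projective space). For `N = 0` this is about `m / 2`, and the bound is quadratic in `m` if the dimension
is fixed.

In (4), (5), (6) nothing is assumed for `S` but `κ(S) = ν(S)` (where `κ(S) = -∞` means that `K_S` is not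
pseudo-effective): this is known if `dim S ≤ 3` (Miyaoka, Kawamata), if `S` is of general type,
uniruled, has a good minimal model, ... So Q1 has a positive answer for all projective manifolds
`W` (of any dimension) which are covered by a family as in (5) of copies of such a variety `S`. In
general, it is reduced to `S`.

## Proof

(1): Let `L` be the function field of `W` and `K` that of `D` (over `Λ`). The restriction of a
pluricanonical form `η` of `W` to `D` is constructed as follows: a transcendence basis of `K / Λ` is taken
from `L`, and `η` is evaluated on the dual vector fields over `Λ` and on derivations which move the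
parameters. Since a prime divisor over `Λ` is defined over a finitely generated field, these can be
chosen such that they are regular on the functions of `W` which are regular at the divisor. So if
`η` is a section of `j (r K_W - A) + H`, one gets a section of `j (r K_D - A|_D) + H|_D`, and the
derivations can be chosen for all `j` together such that the restrictions are not zero. If `h` ratios of
sections of `A` are algebraically independent then at least `h - (dim W - dim D)` of them remain
algebraically independent over `Λ`.

(3): the lower bound `κ(W) ≥ κ(V)` is in `MP_e23cd6_ag.MultivaluedFibrations`.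

(4): under the second assumption this follows from (1), and `κ(S_Λ) ≤ κ(S)` for `Λ = ℂ(Y)`
(`MP_f72953_ag.CoveringFamilies`). If `κ(S) = ν(S)` then `ν(W) ≤ dim Y + ν(S)`.

(5), (6): the equality `κ(W) = dim Y + κ(S)` is in `MP_e23cd6_ag.ProductTransfer`.
-/

set_option autoImplicit false
set_option linter.overlappingInstances false

open FF Pool.Agent.W602.GT Pool.Agent.N162.GP

namespace Pool.Agent.Results.MP_370cf3_ag.CoveringFamilies

/-- `κ(X) ≥ h` for the varieties `X` over `k` of dimension `n` with function field `L`: for some `m ≥ 1`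
there are `h + 1` `m`-canonical forms, regular along all prime divisors over `X`, whose ratios are `h`
algebraically independent functions. -/
def KodairaGe (k L : Type) [Field k] [Field L] [Algebra k L] (n h : ℕ) : Prop :=
  ∃ m : ℕ, 1 ≤ m ∧ ∃ Φ : Fin (h + 1) → (Fin n → Derivation k L L) → L,
    (∀ j, IsPluri m (Φ j) ∧ ∀ P : Place k L, Divisorial n P → RegAt P (Φ j)) ∧
    ∃ D, Φ 0 D ≠ 0 ∧ AlgebraicIndependent k fun j : Fin h => Φ j.succ D / Φ 0 D

/-- `κ(A) ≥ h` for the divisor `A` on the varieties of dimension `n` with the function field `L` and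
their blow-ups, which has the multiplicity `α v` along each prime divisor `v` over them: some multiple
`m A`, `m ≥ 1`, has sections `f 0 ≠ 0, ..., f h` such that the `h` ratios `f i / f 0` are algebraically
independent. -/
def DivisorKodairaGe (k L : Type) [Field k] [Field L] [Algebra k L] (n : ℕ) (α : Place k L → ℤ)
    (h : ℕ) : Prop :=
  ∃ m : ℕ, 1 ≤ m ∧ ∃ f : Fin (h + 1) → L, f 0 ≠ 0 ∧
    (∀ l, ∀ v : Place k L, Divisorial n v → f l = 0 ∨ -(m * α v) ≤ v.ord (f l)) ∧
    AlgebraicIndependent k fun i : Fin h => f i.succ / f 0

/-- `r K - A` is pseudo-effective, where `A` has the multiplicity `α v` along `v`: there is a divisor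
`H` (generated by a finite set `S` of functions) such that for all `j ≥ 1` the divisor
`j (r K - A) + H` has a nonzero section: a `j r`-fold pluricanonical form whose values on the vector
fields which are regular along `v` have order at least `j (α v) + v(s)`, for some `s` in `S`. -/
def PseudoeffectiveRest (k L : Type) [Field k] [Field L] [Algebra k L] (n r : ℕ)
    (α : Place k L → ℤ) : Prop :=
  ∃ S : Finset L, ∀ j : ℕ, 1 ≤ j → ∃ β : (Fin n → Derivation k L L) → L,
    IsPluri (j * r) β ∧ (∃ D, β D ≠ 0) ∧
    ∀ v : Place k L, Divisorial n v → ∀ D : Fin n → Derivation k L L, (∀ i, DerReg v (D i)) →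
      β D = 0 ∨ ∃ s ∈ S, s ≠ 0 ∧ j * α v + v.ord s ≤ v.ord (β D)

/-- The inequality of Campana and Peternell for the variety `X` over `k` of dimension `n` with function
field `L`, and all divisors `A` on its blow-ups: if `r K_X - A` is pseudo-effective, `r ≥ 1`, and
`κ(A) ≥ h` then `κ(X) ≥ h`. -/
def CampanaPeternell (k L : Type) [Field k] [Field L] [Algebra k L] (n : ℕ) : Prop :=
  ∀ (r : ℕ) (α : Place k L → ℤ) (h : ℕ), 1 ≤ r → PseudoeffectiveRest k L n r α →
    DivisorKodairaGe k L n α h → KodairaGe k L n h

/-- The variety `W` over `k`, of dimension `n`, with function field `L`, is covered by a family with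
a parameter space of dimension `c` with function field `Λ`, and with members of dimension `e`; the
function field of the generic member `D` is `K` over `Λ`, and its map to `W` is generically finite onto its
image (`K` is algebraic over the compositum of `Λ` and `L`). -/
structure Covering (k L Λ K : Type) [Field k] [Field L] [Field Λ] [Field K] [Algebra k L]
    [Algebra k Λ] [Algebra Λ K] [Algebra L K] (n c e : ℕ) : Prop where
  dimW : Algebra.trdeg k L = n
  dimT : Algebra.trdeg k Λ = c
  dimD : Algebra.trdeg Λ K = e
  alg : ∀ x : K, IsAlgebraic (IntermediateField.adjoin Λ (Set.range (algebraMap L K))) x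

/-- The divisor on (the blow-ups of) `D` with the multiplicities `β` is the restriction of the one on
(the blow-ups of) `W` with the multiplicities `α`: for a prime divisor `Q` over `D`, `β Q = 0` if the
image of `Q` is dense in `W`, and `β Q = e α P` if `Q` lies over the prime divisor `P` with ramification
index `e`. -/
def IsRestriction {k L Λ K : Type} [Field k] [Field L] [Field Λ] [Field K] [Algebra k L]
    [Algebra Λ K] [Algebra L K] (α : Place k L → ℤ) (β : Place Λ K → ℤ) : Prop :=
  ∀ Q : Place Λ K, ((∀ f : L, Q.ord (algebraMap L K f) = 0) → β Q = 0) ∧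
    ∀ (P : Place k L) (e : ℕ), 0 < e → (∀ f : L, Q.ord (algebraMap L K f) = e * P.ord f) →
      β Q = e * α P

/-- `ω` is a section of `m K + H`, where `H` is generated by the finite set `S` of functions. -/
def IsSection {L : Type} [Field L] [Algebra ℂ L] (n m : ℕ) (S : Finset L)
    (ω : (Fin n → Derivation ℂ L L) → L) : Prop :=
  IsPluri m ω ∧ ∀ v : Place ℂ L, Divisorial n v → ∀ D : Fin n → Derivation ℂ L L,
    (∀ i, DerReg v (D i)) → ω D = 0 ∨ ∃ s ∈ S, s ≠ 0 ∧ v.ord s ≤ v.ord (ω D)

/-- `κ(X) = ν(X)`: either for every divisor `H` (generated by a finite set `S` of functions) `m K + H`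
has no nonzero section for large `m` (`K_X` is not pseudo-effective), or for some `h`, `κ(X) ≥ h` and
for every `H` there are at most `C m ^ h` linearly independent sections of `m K + H`, for all
`m ≥ 1`. -/
def Abundant (L : Type) [Field L] [Algebra ℂ L] (n : ℕ) : Prop :=
  (∀ S : Finset L, ∃ m₀ : ℕ, ∀ m, m₀ ≤ m → ∀ ω, IsSection n m S ω → ω = 0) ∨
  ∃ h, KodairaGe ℂ L n h ∧ ∀ S : Finset L, ∃ C : ℕ, ∀ m N : ℕ, 1 ≤ m →
    ∀ ω : Fin N → (Fin n → Derivation ℂ L L) → L, LinearIndependent ℂ ω →
      (∀ l, IsSection n m S (ω l)) → N ≤ C * m ^ h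

/-- `K` is the function field of `Y × S`, where `E` and `S` are the function fields of the varieties
`Y` and `S` of dimensions `a ≥ 1` and `b`. -/
structure IsProduct {K : Type} [Field K] [Algebra ℂ K] (E S : IntermediateField ℂ K) (a b : ℕ) :
    Prop where
  pos : 1 ≤ a
  sup : E ⊔ S = ⊤
  dimE : Algebra.trdeg ℂ E = a
  dimS : Algebra.trdeg ℂ S = b
  dimK : Algebra.trdeg ℂ K = (a + b : ℕ)

/-- `K_Y - 2 A` is big, where the linear system `A` on `Y` (of dimension `a`, with function field `E`)
is spanned by the functions `c i`: for some `p ≥ 1` there are a `p`-canonical form `η ≠ 0` on `Y` and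
algebraically independent functions `g 1, ..., g a` such that the forms `c i ^ (2 p) u η`, for `u` in
`{1, g 1, ..., g a}`, are regular along all prime divisors over `Y`. -/
def BigTwist {E : Type} [Field E] [Algebra ℂ E] (a : ℕ) {ι : Type} (c : ι → E) : Prop :=
  ∃ p : ℕ, 1 ≤ p ∧ ∃ η : (Fin a → Derivation ℂ E E) → E, IsPluri p η ∧ (∃ D, η D ≠ 0) ∧
    ∃ g : Fin a → E, AlgebraicIndependent ℂ g ∧ ∀ P : Place ℂ E, Divisorial a P →
      ∀ (i : ι) (u : E), (u = 1 ∨ ∃ j, u = g j) → RegAt P (fun D => c i ^ (2 * p) * (u * η D))

/-- `K_V - (2 + 1 / M) A` is effective for some `M ≥ 1`, where the linear system `A` on `V` (of dimension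
`n`, with function field `K`) is spanned by the functions `a i`: there is an `M`-canonical form
`ω ≠ 0` such that the forms `a i ^ (2 M + 1) ω` are regular along all prime divisors over `V`. -/
def EffectiveTwist {K : Type} [Field K] [Algebra ℂ K] (n : ℕ) {ι : Type} (a : ι → K) : Prop :=
  ∃ M : ℕ, 1 ≤ M ∧ ∃ ω : (Fin n → Derivation ℂ K K) → K, IsPluri M ω ∧ (∃ D, ω D ≠ 0) ∧
    ∀ Q : Place ℂ K, Divisorial n Q → ∀ i, RegAt Q (fun D => a i ^ (2 * M + 1) * ω D)

/-- (1) Let `W` be covered by a family with the generic member `D`. Every divisor `A` has a restriction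
`A|_D`. If `r K_W - A` is pseudo-effective then so is `r K_D - A|_D`, and if `κ(A) ≥ h` then
`κ(A|_D) ≥ h'` for some `h'` with `h ≤ (n - e) + h'`. -/
def Restriction : Prop :=
  ∀ (k L Λ K : Type) [Field k] [CharZero k] [Field L] [Field Λ] [Field K] [Algebra k L]
    [Algebra k Λ] [Algebra k K] [Algebra Λ K] [IsScalarTower k Λ K] [Algebra L K]
    [IsScalarTower k L K] [Algebra.EssFiniteType k L] (n c e : ℕ), Covering k L Λ K n c e →
    ∀ α : Place k L → ℤ, (∃ β : Place Λ K → ℤ, IsRestriction α β) ∧
      ∀ β : Place Λ K → ℤ, IsRestriction α β →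
        (∀ r, PseudoeffectiveRest k L n r α → PseudoeffectiveRest Λ K e r β) ∧
        ∀ h, DivisorKodairaGe k L n α h → ∃ h', h + e ≤ n + h' ∧ DivisorKodairaGe Λ K e β h'

/-- (2) Let `W` be covered by a family with the generic member `D` such that the inequality of Campana
and Peternell holds for `D`. If `r K_W - A` is pseudo-effective and `κ(A) ≥ h` then `κ(D) ≥ h'` for
some `h'` with `h ≤ (n - e) + h'`. If moreover `κ(W) ≥ (n - e) + κ(D)` then the inequality holds for
`W`. -/
def Transfer : Prop :=
  ∀ (k L Λ K : Type) [Field k] [CharZero k] [Field L] [Field Λ] [Field K] [Algebra k L]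
    [Algebra k Λ] [Algebra k K] [Algebra Λ K] [IsScalarTower k Λ K] [Algebra L K]
    [IsScalarTower k L K] [Algebra.EssFiniteType k L] (n c e : ℕ), Covering k L Λ K n c e →
    CampanaPeternell Λ K e →
      (∀ (r : ℕ) (α : Place k L → ℤ) (h : ℕ), 1 ≤ r → PseudoeffectiveRest k L n r α →
        DivisorKodairaGe k L n α h → ∃ h', h + e ≤ n + h' ∧ KodairaGe Λ K e h') ∧
      ((∀ h, KodairaGe Λ K e h → KodairaGe k L n (n - e + h)) → CampanaPeternell k L n)

/-- (3) Let `V ⇢ W` be dominant and generically finite, with function fields `K ⊇ L`, let the functions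
`a i` on `V` separate the points of its general fibre (they span `K` over `L`), and let
`K_V - (2 + 1 / M) A` be effective. If the inequality of Campana and Peternell holds for `V` then it
holds for `W`. -/
def FiniteImages : Prop :=
  ∀ (L K : Type) [Field L] [Field K] [Algebra ℂ L] [Algebra ℂ K] [Algebra L K]
    [IsScalarTower ℂ L K] [FiniteDimensional L K] [Algebra.EssFiniteType ℂ K] (n : ℕ),
    Algebra.trdeg ℂ L = n → ∀ (ι : Type) [Finite ι] (a : ι → K),
    Submodule.span L (Set.range a) = ⊤ → EffectiveTwist n a → CampanaPeternell ℂ K n →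
      CampanaPeternell ℂ L n

/-- (4) Let `Y × S ⇢ W` be any dominant generically finite rational map, where `κ(S) = ν(S)`, or the
inequality of Campana and Peternell holds for `S` over the function field of `Y`. If `r K_W - A` is
pseudo-effective, `r ≥ 1`, and `κ(A) ≥ h` then `κ(S) ≥ h - dim Y`, and `κ(S) ≥ 0`. -/
def Products : Prop :=
  ∀ (L K : Type) [Field L] [Field K] [Algebra ℂ L] [Algebra ℂ K] [Algebra L K]
    [IsScalarTower ℂ L K] [FiniteDimensional L K] [Algebra.EssFiniteType ℂ K]
    (E S : IntermediateField ℂ K) (a b : ℕ), IsProduct E S a b →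
    (Abundant S b ∨ CampanaPeternell E K b) →
    ∀ (r : ℕ) (α : Place ℂ L → ℤ) (h : ℕ), 1 ≤ r → PseudoeffectiveRest ℂ L (a + b) r α →
      DivisorKodairaGe ℂ L (a + b) α h → KodairaGe ℂ S b (h - a)

/-- (5) Families of copies of `S`: let `Y × S ⇢ W` be dominant and generically finite, let the
functions `c i` on `Y` span the function field `K` of `Y × S` over the function field `L` of `W`, i.e.
they separate the points of `Y` below a general point of `W` and the general `{y} × S` is birational to
its image, and let `K_Y - 2 A` be big. If `κ(S) = ν(S)`, or the inequality of Campana and Peternell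
holds for `S` over the function field of `Y`, then it holds for `W`. -/
def Families : Prop :=
  ∀ (L K : Type) [Field L] [Field K] [Algebra ℂ L] [Algebra ℂ K] [Algebra L K]
    [IsScalarTower ℂ L K] [FiniteDimensional L K] [Algebra.EssFiniteType ℂ K]
    (E S : IntermediateField ℂ K) (a b : ℕ), IsProduct E S a b → ∀ (ι : Type) [Finite ι]
    (c : ι → E), Submodule.span L (Set.range fun i => (c i : K)) = ⊤ → BigTwist a c →
    (Abundant S b ∨ CampanaPeternell E K b) → CampanaPeternell ℂ L (a + b)

/-- (6) Families over complete intersections: let `Y` be a variety in projective `(M + 1)`-space which is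
cut out by equations of degree at most `D` and has the regular canonical forms `P(x) ω₀` for all forms
`P` of degree `m`, for example a smooth complete intersection
(`MP_e23cd6_ag.ProductTransfer.CompleteIntersections`). Let `Y × S ⇢ W` be generically finite
of degree less than `(N + 1) (k + 2 - N)`, and birational to its image on the general `{y} × S`
(`K = L(E)`), where `2 k < m`, `7 N + 4 ≤ k`, `(M + 1) N < k + M + 2`, `D + N ≤ k + 2`. If
`κ(S) = ν(S)`, or the inequality of Campana and Peternell holds for `S` over the function field of `Y`,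
then it holds for `W`. -/
def FamiliesOverCI : Prop :=
  ∀ (M n m D N k b : ℕ) (L K : Type) [Field L] [Field K] [Algebra ℂ L] [Algebra ℂ K]
    [Algebra L K] [IsScalarTower ℂ L K] [FiniteDimensional L K] [Algebra.EssFiniteType ℂ K]
    (E S : IntermediateField ℂ K) (x : Fin (M + 2) → E), IsProduct E S n b →
    LowDegree n m D x → 1 ≤ M → 2 * k < m → 7 * N + 4 ≤ k → (M + 1) * N < k + M + 2 →
    D + N ≤ k + 2 → IntermediateField.adjoin L (E : Set K) = ⊤ →
    Module.finrank L K < (N + 1) * (k + 2 - N) → (Abundant S b ∨ CampanaPeternell E K b) →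
    CampanaPeternell ℂ L (n + b)

theorem abk_of {L : Type} [Field L] [Algebra ℂ L] {n : ℕ} (h : Abundant L n) :
    Pool.Agent.L0h17.CP.Abk ℂ L n := by
  have key : ∀ (m : ℕ) (S : Finset L) (ω : (Fin n → Derivation ℂ L L) → L),
      Pool.Agent.W619.TW.IsSec ℂ L n (fun _ => False) S m 1 ω → IsSection n m S ω := by
    intro m S ω hω
    refine ⟨hω.1, fun v hv D hD => ?_⟩
    rcases hω.2.1 v hv (fun h => h) D hD with h1 | ⟨s, hs, hs0, h1⟩
    · exact Or.inl h1
    · refine Or.inr ⟨s, hs, hs0, ?_⟩
      simpa using h1
  rcases h with h | ⟨h0, h1, h2⟩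
  · left
    intro S
    obtain ⟨m₀, hm⟩ := h S
    refine ⟨m₀, fun m hm' hI => ?_⟩
    obtain ⟨ω, hω, hsec⟩ := hI
    exact hω.ne_zero 0 (hm m hm' _ (key m S _ (hsec 0)))
  · right
    refine ⟨h0, h1, fun S => ?_⟩
    obtain ⟨C, hC⟩ := h2 S
    refine ⟨C, fun m N hm hI => ?_⟩
    obtain ⟨ω, hω, hsec⟩ := hI
    exact hC m N hm ω hω fun l => key m S _ (hsec l)

/-- (1) The restriction of divisors to the members of a covering family. (2) The transfer of the
inequality of Campana and Peternell from the members. (3) Finite images. (4) Images of products. (5)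
Families of copies of a variety. (6) The example of families over complete intersections. -/
theorem result : Restriction ∧ Transfer ∧ FiniteImages ∧ Products ∧ Families ∧ FamiliesOverCI := by
  refine ⟨?_, ?_, ?_, ?_, ?_, ?_⟩
  · intro k L Λ K _ _ _ _ _ _ _ _ _ _ _ _ _ n c e h α
    refine ⟨Pool.Agent.L0h17.CP.exists_res α, fun β hβ => ⟨fun r hr => ?_, fun g hg => ?_⟩⟩
    · exact Pool.Agent.L0h17.CP.psr_res h.dimW h.dimT h.dimD h.alg hβ hr
    · obtain ⟨g', h1, h2⟩ := Pool.Agent.L0h17.CP.kap_res h.dimW h.dimT h.dimD h.alg hβ hg
      exact ⟨g', by omega, h2⟩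
  · intro k L Λ K _ _ _ _ _ _ _ _ _ _ _ _ _ n c e h hI
    have key : ∀ (r : ℕ) (α : Place k L → ℤ) (g : ℕ), 1 ≤ r → PseudoeffectiveRest k L n r α →
        DivisorKodairaGe k L n α g → ∃ h', g + e ≤ n + h' ∧ KodairaGe Λ K e h' := by
      intro r α g hr hP hA
      obtain ⟨g', h1, h2⟩ := Pool.Agent.L0h17.CP.mem_cp h.dimW h.dimT h.dimD h.alg hI hr hP hA
      exact ⟨g', by omega, h2⟩
    refine ⟨key, fun hκ r α g hr hP hA => ?_⟩
    obtain ⟨g', h1, h2⟩ := key r α g hr hP hA
    exact Pool.Agent.L0h17.TR.kod_mono (by omega) (hκ g' h2)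
  · intro L K _ _ _ _ _ _ _ _ n hn ι _ a ha heff hI
    exact Pool.Agent.L0h17.CP.fin_cpk hn ha heff hI
  · intro L K _ _ _ _ _ _ _ _ E S a b h hI r α g hr hP hA
    have key : ∃ h', g ≤ a + h' ∧ Pool.Agent.L0h17.TR.KodR ℂ S b h' := by
      rcases hI with hI | hI
      · exact Pool.Agent.L0h17.CP.prod_ab (L := L) h.pos h.dimE h.dimS h.dimK
          (by rw [sup_comm]; exact h.sup) (abk_of hI) hr hP hA
      · exact Pool.Agent.L0h17.CP.prod_cp (L := L) h.dimE h.dimS h.dimK
          (by rw [sup_comm]; exact h.sup) hI hr hP hA
    obtain ⟨h', h1, h2⟩ := key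
    exact Pool.Agent.L0h17.TR.kod_mono (by omega) h2
  · intro L K _ _ _ _ _ _ _ _ E S a b h ι _ c hc hbig hI
    obtain ⟨p, hp1, η, hη, hη0, g, hg, hreg⟩ := hbig
    have dat : Pool.Agent.L0h17.KU.Dat L E S a b p η g c := ⟨h.dimE, h.dimS, h.dimK,
      by rw [sup_comm]; exact h.sup, h.pos, hp1, hη, hη0, hg, hc,
      fun i P hP D hD => ⟨by
        have h1 := hreg P hP i 1 (Or.inl rfl) D hD
        simp only [one_mul] at h1
        exact h1, fun j => hreg P hP i _ (Or.inr ⟨j, rfl⟩) D hD⟩⟩
    rcases hI with hI | hI
    · exact Pool.Agent.L0h17.CP.ab_transfer dat (abk_of hI)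
    · exact Pool.Agent.L0h17.CP.prod_cpk h.dimE h.dimS h.dimK (by rw [sup_comm]; exact h.sup) hI
        fun g hg => ((Pool.Agent.L0h17.KU.transfer dat).1 g).2 hg
  · intro M n m D N k b L K _ _ _ _ _ _ _ _ E S x h hx hM hkm hk hN hD hE hd hI
    obtain ⟨η, g, dat⟩ := Pool.Agent.L0h17.KU.ci_dat hx h.pos hM hk hN hD (by omega) hd hE
      (by rw [sup_comm]; exact h.sup) h.dimS h.dimK
    rcases hI with hI | hI
    · exact Pool.Agent.L0h17.CP.ab_transfer dat (abk_of hI)
    · exact Pool.Agent.L0h17.CP.prod_cpk h.dimE h.dimS h.dimK (by rw [sup_comm]; exact h.sup) hI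
        fun g hg => ((Pool.Agent.L0h17.KU.transfer dat).1 g).2 hg

end Pool.Agent.Results.MP_370cf3_ag.CoveringFamilies
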