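import Pool.Agent.Results.MP_97d78d_ag.CurveFibrations
import Pool.Agent.N162.GQ.CP

/-!
# The conjecture of Campana and Peternell for the images of nondegenerate hypersurfaces fibred by
curves of arbitrary genus

Let `V` be a component of the hypersurface `f = 0` in the torus with the coordinates
`t 1, ..., t n, x, y`, where the Laurent polynomial `f` is nondegenerate in the sense of Khovanskii.
Suppose that `x` and `y` appear in `f` only with exponents `(i, j)` in the trapezoid `T` given by
`0 ≤ j ≤ b`, `0 ≤ i ≤ a + s (b - j)`; the Newton polytope of `f` is arbitrary otherwise. Suppose that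
`t 1, ..., t n, x` are algebraically independent on `V`, and that the generic fibres of the map
`V ⇢ V' = (ℙ ^ 1) ^ n` given by `t` are irreducible. These fibres are curves of any genus on a rational
ruled surface (or plane curves: `a = 0`, `s = 1`). Suppose that for all lattice points `(i, j)` in the
interior of `T` there is a vector `u i j` over `(i, j)` such that `u i j` and the `u i j + M e l` are in
the Fine interior of the Newton polytope of `f`. For example, `V` may be a general hypersurface of
multidegree `(e 1, ..., e n, a, b)` in `(ℙ ^ 1) ^ (n + 2)` with `e l ≥ M + 2`, or of multidegree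
`(e 1, ..., e n, b)` in `(ℙ ^ 1) ^ n × ℙ ^ 2`, with arbitrary `a`, `b` (for `b ≤ 1` the variety `V` is
rational, for `a = b = 2` it is fibred by elliptic curves, in general `V` is of general type).

Let `V ⇢ W` be a dominant rational map of finite degree. The map is arbitrary; it is not assumed to be
related to the fibration, and its degree may be arbitrarily large. Let `W'` be the image of `V` in
`W × V'`, and let `m` be the degree of `W' → W`. Let `2 m ≤ M + 1`.

**Theorem.** The conjecture of Campana and Peternell holds for all smooth projective varieties `X`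
birational to `W`: if `r K_X ∼ A + B`, `r ≥ 1`, `B` is pseudo-effective and `κ(A) ≥ l` then `κ(X) ≥ l`.

Here `W` may be uniruled, of general type, or of Kodaira dimension `dim W - 1`. The proof uses the
starting result `MP_97d78d_ag.CurveFibrations` (`W` is uniruled or `κ(W) ≥ dim W - 1`): if `A` is
effective then `K_X` is pseudo-effective, hence `W` is not uniruled and `κ(X) ≥ dim X - 1`; and if
`κ(A) = dim X` then `K_X` is big.
-/

set_option autoImplicit false
set_option linter.overlappingInstances false
set_option maxHeartbeats 4000000
set_option synthInstance.maxHeartbeats 400000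

open FF Module Pool.Agent Pool.Agent.W602.GT Pool.Agent.R885
open Pool.Agent.N162.GQ (DivKodGe PsefRest)
open Pool.Agent.Results.MP_97d78d_ag.CurveFibrations (Nondegenerate InFine InTrapezoid Interior)

namespace Pool.Agent.Results.MP_370cf3_ag.CurveFibrationImages

/-- **The conjecture of Campana and Peternell for images of fibrations by curves.** Let `V` be a
component of the zero set of a nondegenerate Laurent polynomial `f` in the variables `t l`, `x`, `y`,
with function field `K` and generic point `z`, and let the exponents of `x`, `y` be in a trapezoid.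
Suppose that the `t l` and `x` are algebraically independent on `V`, that the generic fibres of the map
`V ⇢ V'` given by the `t l` are irreducible, and that for all lattice points `(i, j)` in the interior
of the trapezoid there is a vector `u i j` over it such that `u i j` and the `u i j + M e l` are in the
Fine interior. Let `V ⇢ W` be a dominant rational map of finite degree, `L` the function field of `W`,
`m` the degree over `W` of the image of `V` in `W × V'`, and `2 m ≤ M + 1`. Let `α` be the function of
the multiplicities of a divisor `A` along the prime divisors over `W`. If `r K - A` is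
pseudo-effective for some `r ≥ 1` and `κ(A) ≥ l` then `κ(W) ≥ l`. -/
theorem result {n a s b M : ℕ} (hM : 1 ≤ M) {f : (Fin (n + 2) → ℤ) →₀ ℂ}
    (hf : Nondegenerate f) (hT : InTrapezoid f a s b) {K : Type} [Field K] [Algebra ℂ K]
    {z : Fin (n + 2) → K} (hz : ∀ i, z i ≠ 0) (hfz : ev z f = 0)
    (hgen : IntermediateField.adjoin ℂ (Set.range z) = ⊤) (hK : Algebra.trdeg ℂ K = (n + 1 : ℕ))
    (hind : AlgebraicIndependent ℂ fun i : Fin (n + 1) => z i.castSucc)
    {t : Fin n → K} (ht : ∀ l, t l = z l.castSucc.castSucc)
    (hcl : ∀ g : K, IsAlgebraic (IntermediateField.adjoin ℂ (Set.range t)) g →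
      g ∈ IntermediateField.adjoin ℂ (Set.range t))
    {u : ℕ → ℕ → Fin (n + 2) → ℤ}
    (hu : ∀ i j, Interior a s b i j → u i j (Fin.last n).castSucc = i ∧
      u i j (Fin.last (n + 1)) = j ∧ InFine f (u i j) ∧
      ∀ l : Fin n, InFine f (u i j + (M : ℤ) • Pi.single l.castSucc.castSucc 1))
    (L : Type) [Field L] [Algebra ℂ L] [Algebra L K] [IsScalarTower ℂ L K]
    [FiniteDimensional L K]
    (hm : 2 * Module.finrank L (IntermediateField.adjoin L (Set.range t)) ≤ M + 1)
    (r : ℕ) (α : Place ℂ L → ℤ) (hr : 1 ≤ r) (hα : PsefRest L (n + 1) r α)
    (l : ℕ) (hl : DivKodGe L (n + 1) α l) : KodGe ℂ L (n + 1) (fun _ => False) l := by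
  have hess : Algebra.EssFiniteType ℂ K := by
    classical
    rw [← IntermediateField.fg_top_iff, ← hgen]
    exact ⟨Finset.univ.image z, by rw [Finset.coe_image, Finset.coe_univ, Set.image_univ]⟩
  have hL : Algebra.trdeg ℂ L = (n + 1 : ℕ) := Pool.Agent.Y184.NT.trdeg_below (K := K) hK
  have hessL : Algebra.EssFiniteType ℂ L := Pool.Agent.TH466.QG.ess_below (K := K)
  refine Pool.Agent.N162.GQ.cp_of_dich hL hr (fun hp => ?_) hα hl
  exact ((Pool.Agent.Results.MP_97d78d_ag.CurveFibrations.result hM hf hT hz hfz hgen hK hind ht hcl
    hu L).2 hm).resolve_left fun h => (Pool.Agent.W619.Y.uniruled_neg (n + 1) hL h).1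
      ((Pool.Agent.TH466.QG.psef_iff (n + 1)).1 hp)

end Pool.Agent.Results.MP_370cf3_ag.CurveFibrationImages
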