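import Pool.Agent.Results.MP_97d78d_ag.NormalCrossingCovers

/-!
# The conjecture of Campana and Peternell for abelian covers of projective space branched along normal
crossing hypersurfaces

Let `F k`, `k = 0, ..., n`, be forms of degrees `d k` in `n + 1` variables whose zero sets in the
projective `n`-space are smooth hypersurfaces with normal crossings. Let `X` be a projective manifold
which is birational to an abelian cover of the projective space which is branched only along these
hypersurfaces: the function field `K` of `X` is generated by the affine coordinates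
`x (b + 1) / x 0` and by roots `z j`, `z j ^ (m j) = ∏ k, (F k (x) / x 0 ^ (d k)) ^ (a j k)`, where `m j`
divides `∑ k, a j k * d k`. (Covers which are branched along fewer hypersurfaces are included: add
general hyperplanes, with `a j k = 0`.) The covers have quotient singularities, in general not
canonical ones, the canonical class of `X` is in general not the pullback of the canonical class of the
cover, and `κ(X)` takes all values between `-∞` and `n`.

**Theorem.** Let `A` be a divisor on `X`. If `r K_X ∼ A + B`, `r ≥ 1`, `B` is pseudo-effective and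
`κ(A) ≥ l ≥ 0` then `κ(X) ≥ l`. Moreover, `κ(A)` is at most the dimension of the polyhedron `Π` of the
starting result `MP_97d78d_ag.NormalCrossingCovers`, which is given by the numbers `d k`, `m j`, `a j k`.

By the starting result, `κ(X) = ν(X) = dim Π` if `Π` is not empty, and `K_X` is not pseudo-effective if
`Π` is empty. The products of the sections of `j A` and of one section of `j B + H` are sections of
`j r K_X + H`, and so `κ(A) ≤ ν(X)`.
-/

set_option autoImplicit false

open FF MvPolynomial Pool.Agent.W602.GT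
open Pool.Agent.Results.MP_97d78d_ag.NormalCrossingCovers (IsSection KodairaGe NumericalLe
  Pseudoeffective polyhedron NormalCrossings affine)

namespace Pool.Agent.Results.MP_370cf3_ag.NormalCrossingCovers

section

variable (N : ℕ) (K : Type) [Field K] [Algebra ℂ K]

/-- `κ(A) ≥ h` for the divisor `A` with the multiplicity `a v` along each prime divisor `v` over `X`:
there is `m ≥ 1` with `h⁰(j m A) ≥ j ^ h` for all `j ≥ 1`. -/
def IitakaGe (a : Place ℂ K → ℤ) (h : ℕ) : Prop :=
  ∃ m : ℕ, 1 ≤ m ∧ ∀ j : ℕ, 1 ≤ j → ∃ f : Fin (j ^ h) → K, LinearIndependent ℂ f ∧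
    ∀ l, ∀ v : Place ℂ K, Divisorial N v → -(j * m * a v) ≤ v.ord (f l)

/-- `r K_X - A` is pseudo-effective, where `A` has the multiplicity `a v` along `v`: there is a divisor
`H` (generated by a finite set `S` of functions) such that for all `j ≥ 1` the divisor
`j (r K_X - A) + H` has a nonzero section: a `j r`-fold pluricanonical form whose values on the vector
fields which are regular along `v` have order at least `j (a v) + v(s)`, for some `s ∈ S`. -/
def PseudoeffectiveRest (r : ℕ) (a : Place ℂ K → ℤ) : Prop :=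
  ∃ S : Finset K, ∀ j : ℕ, 1 ≤ j → ∃ β : (Fin N → Derivation ℂ K K) → K,
    IsPluri (j * r) β ∧ (∃ D, β D ≠ 0) ∧ ∀ v : Place ℂ K, Divisorial N v →
      ∀ D : Fin N → Derivation ℂ K K, (∀ c, DerReg v (D c)) →
        β D = 0 ∨ ∃ s ∈ S, s ≠ 0 ∧ j * a v + v.ord s ≤ v.ord (β D)

variable {N K}

/-- the products of the sections of `j A` and of a section of `j (r K - A) + H` -/
theorem sections {r : ℕ} {a : Place ℂ K → ℤ} {h : ℕ} (hps : PseudoeffectiveRest N K r a)
    (hA : IitakaGe N K a h) : ∃ (S : Finset K) (m : ℕ), 1 ≤ m ∧ ∀ j : ℕ, 1 ≤ j →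
      ∃ ω : Fin (j ^ h) → (Fin N → Derivation ℂ K K) → K, LinearIndependent ℂ ω ∧
        ∀ l, IsSection N S (j * m * r) 1 (ω l) := by
  obtain ⟨S, hS⟩ := hps
  obtain ⟨m, hm, hf⟩ := hA
  refine ⟨S, m, hm, fun j hj => ?_⟩
  obtain ⟨f, hfli, hfa⟩ := hf j hj
  obtain ⟨β, h1, ⟨D0, hD0⟩, h2⟩ := hS (j * m) (Nat.one_le_iff_ne_zero.2
    (mul_ne_zero (by omega) (by omega)))
  have hf0 : ∀ l, f l ≠ 0 := fun l => hfli.ne_zero l
  refine ⟨fun l D => f l * β D, ?_, fun l => ⟨?_, ?_⟩⟩
  · refine LinearIndependent.of_comp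
      (LinearMap.proj D0 : ((Fin N → Derivation ℂ K K) → K) →ₗ[ℂ] K) ?_
    exact hfli.map' (LinearMap.mulRight ℂ (β D0))
      (LinearMap.ker_eq_bot.2 (mul_left_injective₀ hD0))
  · intro A D
    change f l * β _ = _
    rw [h1 A D]
    ring
  · intro v hv D hD
    rcases h2 v hv D hD with h4 | ⟨s, hs, hs0, h4⟩
    · left
      change f l * β D = 0
      rw [h4, mul_zero]
    · by_cases hb : β D = 0
      · left
        change f l * β D = 0
        rw [hb, mul_zero]
      right
      refine ⟨s, hs, hs0, ?_⟩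
      change _ ≤ v.ord (f l * β D)
      rw [v.ord_mul (hf0 l) hb]
      have h5 := hfa l v hv
      push_cast at h4 ⊢
      linarith

theorem kodairaGe_mono {h h' : ℕ} (hle : h' ≤ h) (hk : KodairaGe N K h) : KodairaGe N K h' := by
  obtain ⟨m, hm, ω, h1, D, h2, h3⟩ := hk
  refine ⟨m, hm, fun i => ω (Fin.castLE (by omega) i), fun b => h1 _, D, h2, ?_⟩
  exact h3.comp (Fin.castLE hle) (Fin.castLE_injective hle)

/-- the numerical dimension bounds `κ(A)` -/
theorem le_of_num {h0 r : ℕ} (hr : 1 ≤ r) (hnum : NumericalLe N K h0) {a : Place ℂ K → ℤ} {h : ℕ}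
    (hps : PseudoeffectiveRest N K r a) (hA : IitakaGe N K a h) : h ≤ h0 := by
  by_contra hlt
  push Not at hlt
  obtain ⟨S, m, hm, hS⟩ := sections hps hA
  obtain ⟨C, hC⟩ := hnum S
  obtain ⟨M, hM⟩ : ∃ M, M = C * (m * r) ^ h0 := ⟨_, rfl⟩
  have h1 : ∀ j : ℕ, 1 ≤ j → j ≤ M := by
    intro j hj
    have h2 := hC (j * m * r) _ (Nat.one_le_iff_ne_zero.2
      (mul_ne_zero (mul_ne_zero (by omega) (by omega)) (by omega))) (hS j hj)
    have h3 : j ^ (h0 + 1) ≤ j ^ h := Nat.pow_le_pow_right hj hlt
    have h4 : j ^ h0 * j ≤ j ^ h0 * M := by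
      calc j ^ h0 * j = j ^ (h0 + 1) := (pow_succ _ _).symm
        _ ≤ C * (j * m * r) ^ h0 := h3.trans h2
        _ = j ^ h0 * M := by rw [hM, mul_assoc j m r, mul_pow]; ring
    exact Nat.le_of_mul_le_mul_left h4 (Nat.pow_pos hj)
  have h2 := h1 (M + 1) (by omega)
  omega

/-- `K_X` is pseudo-effective -/
theorem pseudoeffective_of {r : ℕ} {a : Place ℂ K → ℤ} {h : ℕ} (hr : 1 ≤ r)
    (hps : PseudoeffectiveRest N K r a) (hA : IitakaGe N K a h) : Pseudoeffective N K := by
  classical
  obtain ⟨S, m, hm, hS⟩ := sections hps hA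
  refine ⟨insert 1 S, fun M => ?_⟩
  have hmr : 1 ≤ m * r := Nat.one_le_iff_ne_zero.2 (mul_ne_zero (by omega) (by omega))
  rcases Nat.eq_zero_or_pos M with hM | hM
  · subst hM
    refine ⟨1, le_rfl, fun _ => 1, ?_, ?_, ?_⟩
    · intro h0
      exact one_ne_zero (congrFun h0 (fun _ => 0))
    · intro A D
      simp
    · intro P _ D _
      exact Or.inr ⟨1, Finset.mem_insert_self _ _, one_ne_zero, by simp⟩
  · obtain ⟨ω, hω, hsec⟩ := hS M hM
    let l0 : Fin (M ^ h) := ⟨0, Nat.pow_pos hM⟩
    refine ⟨m * r, hmr, ω l0, hω.ne_zero l0, ?_, ?_⟩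
    · have h1 := (hsec l0).1
      have h2 : M * m * r = m * r * M := by ring
      rw [h2] at h1
      exact h1
    · intro P hP D hD
      rcases (hsec l0).2 P hP D hD with h3 | ⟨s, hs, hs0, h3⟩
      · exact Or.inl h3
      right
      rcases le_or_gt 0 (P.ord s) with h4 | h4
      · refine ⟨1, Finset.mem_insert_self _ _, one_ne_zero, ?_⟩
        rw [P.ord_one, mul_zero]
        push_cast at h3
        linarith
      · refine ⟨s, Finset.mem_insert_of_mem hs, hs0, ?_⟩
        have h5 : (1 : ℤ) ≤ ((m * r : ℕ) : ℤ) := by exact_mod_cast hmr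
        have h6 : ((m * r : ℕ) : ℤ) * P.ord s ≤ 1 * P.ord s :=
          mul_le_mul_of_nonpos_right h5 h4.le
        push_cast at h3 h6 ⊢
        linarith

end

/-- **The conjecture of Campana and Peternell.** Let `X` be a projective manifold birational to an
abelian cover of the projective `n`-space which is branched along `n + 1` hypersurfaces `F k = 0` with
normal crossings, let `K` be the function field of `X`, and let `α` be the function of the
multiplicities of a divisor `A`. If `r K_X - A` is pseudo-effective for some `r ≥ 1` and `κ(A) ≥ l ≥ 0`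
then `κ(X) ≥ l`, and `l` is at most the dimension of the polyhedron, which is not empty. -/
theorem result (n R : ℕ) (hn : 1 ≤ n) (d : Fin (n + 1) → ℕ) (hd : ∀ k, 1 ≤ d k)
    (F : Fin (n + 1) → MvPolynomial (Fin (n + 1)) ℂ) (hF : ∀ k, (F k).IsHomogeneous (d k))
    (hs : NormalCrossings F) (m : Fin R → ℕ) (hm : ∀ j, 1 ≤ m j) (a : Fin R → Fin (n + 1) → ℕ)
    (hdiv : ∀ j, m j ∣ ∑ k, a j k * d k)
    (K : Type) [Field K] [Algebra ℂ K] (x : Fin (n + 1) → K) (hx0 : x 0 ≠ 0)
    (hbas : IsTranscendenceBasis ℂ (affine x)) (z : Fin R → K)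
    (hz : ∀ j, z j ^ m j = ∏ k, (aeval x (F k) / x 0 ^ d k) ^ a j k)
    (hgen : IntermediateField.adjoin ℂ (Set.range (affine x) ∪ Set.range z) = ⊤)
    (r : ℕ) (hr : 1 ≤ r) (α : Place ℂ K → ℤ) (hps : PseudoeffectiveRest n K r α) (l : ℕ)
    (hA : IitakaGe n K α l) :
    KodairaGe n K l ∧ (polyhedron m a d).Nonempty ∧
      l ≤ Module.finrank ℚ (vectorSpan ℚ (polyhedron m a d)) := by
  obtain ⟨h1, -, h3⟩ := Pool.Agent.Results.MP_97d78d_ag.NormalCrossingCovers.result n R hn d hd F hF
    hs m hm a hdiv K x hx0 hbas z hz hgen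
  have hne := h1.1 (pseudoeffective_of hr hps hA)
  obtain ⟨h4, h5⟩ := h3 hne
  have hle := le_of_num hr h5 hps hA
  exact ⟨kodairaGe_mono hle h4, hne, hle⟩

end Pool.Agent.Results.MP_370cf3_ag.NormalCrossingCovers
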