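import Pool.Agent.L0h18.CP.Prod

/-!
# The inequality of Campana and Peternell for (log) pairs dominated by products of several open
varieties and a curve

Let `X° i`, `i < k`, be smooth varieties over `ℂ` of dimension `m i` (open or projective), and
`U = C ∖ B` a smooth curve, open or projective and of any genus. Let
`V° = X° 0 × ... × X° (k - 1) × U ⇢ W°` be a dominant rational map of finite degree to a variety `W°`
which is proper in the sense that a prime divisor over `V°` has a centre on `V°` if and only if its
image has a centre on `W°`; this is no condition if the `X° i` and `U` are projective. The map need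
not be related to the product structure, and it need not be the quotient by a group. Let `W_i` be the
image of `V` in `W × X 0 × ... × X (i - 1)`, and let `d i` be the degree over `W_i` of the image of
`V` in `W_i × X i`; for example `d 0` is the number of different points of `X 0` below a general fibre
of `V° ⇢ W°`. The product of the `d i` is at most the degree of `V° ⇢ W°`. Suppose that for all `i` the
logarithmic canonical forms of `X° i` separate `2 d i` general points: such points impose independent
conditions on `H⁰(K + D)` of a smooth compactification with the boundary `D`. For example: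

* `X i` is a smooth complete intersection of large degree, with any boundary (first part of the
  theorem), where the bound for `d i` is quadratic in the degree;
* `X i` is a curve of gonality greater than `2 d i`, with any boundary (second part);
* `X° i` is the complement of a divisor with normal crossings of degree `e` in a smooth hypersurface
  of degree `c` in projective space, `c + e ≥ m i + 1 + 2 d i`.

**Theorem.** Let `K_W + D_W` be the log canonical divisor of `W°` (on the smooth projective
compactifications of the varieties properly birational to `W°` with normal crossings boundary). Let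
`A` be a divisor on such a compactification and `r ≥ 1` such that `r (K_W + D_W) - A` is
pseudo-effective. Then `κ(K_W + D_W) ≥ κ(A)`.

In particular Q1 is true for all smooth projective varieties `X` which are birational to such a `W`
(with projective `X i` and `C`): if `K_X ∼ A + B` (over `ℚ`) with `A` effective and `B`
pseudo-effective then `κ(X) ≥ κ(A)`. With `A = 0`: if `K_X` is pseudo-effective then `κ(X) ≥ 0`. The
starting file `CompleteIntersectionTimesCurve` is the case of one factor (a variety cut out by
equations of low degree) and without boundary; here there are several factors, which can be any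
varieties whose canonical forms separate enough points, the degrees are the successive degrees, and
there is a boundary.

## Proof

Let `κ(A) ≥ 0`. Then `K_W + D_W` is pseudo-effective. By the theory of helper145 for the varieties
dominated by products (`Pool/Agent/N145/SX/Multi2.lean`) `κ(K_W + D_W) ≥ dim W - 1`. It remains to see
that `κ(A) = dim W` implies `κ(K_W + D_W) = dim W`. Let `f_0, ..., f_w` be sections of `m' A` with
algebraically independent ratios, and let `S` be a finite set of functions which gives the divisor `H`
in the definition of pseudo-effectivity. There is a polynomial `c` in the ratios such that `c s` is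
integral over the ring of these polynomials, for `s ∈ S`. Hence `c f_0^T` is a section of `T m' A - H`
for large `T` (Kodaira's lemma), and the products of `c f_0^T f_i` with a section of
`(T + 1) m' (r (K_W + D_W) - A) + H` are sections of `(T + 1) m' r (K_W + D_W)` with algebraically
independent ratios. The case without boundary of this argument is due to helper162
(`Pool/Agent/N162/GQ/CP.lean`).
-/

set_option autoImplicit false
set_option linter.overlappingInstances false
set_option maxHeartbeats 4000000
set_option synthInstance.maxHeartbeats 400000

open FF Module Pool.Agent Pool.Agent.W602.GT Pool.Agent.N162.BC Pool.Agent.N162.GP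
open Pool.Agent.L0h18.CP (SeparatesPoints IsImageBoundary PsefRest)
open Pool.Agent.N162.GQ (deg DivKodGe)

namespace Pool.Agent.Results.MP_370cf3_ag.OpenProductPairs

/-- **The inequality of Campana and Peternell for the pairs dominated by products.** (1) Let `E` be
the function field of a smooth complete intersection `X` of dimension `n ≥ 1` of hypersurfaces of the
degrees `d i ≤ D` in projective `(M + 1)`-space, `K_X = O(m)`. If `m ≥ 7 N + 4`,
`(M + 1) N < m + M + 2`, `D + N ≤ m + 2` and `r < (N + 1) (m + 2 - N)` then the canonical forms with
any boundary separate `r` general points. (2) They separate `r` general points on a curve of gonality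
greater than `r`, with any boundary. (3) Let `K` be the function field of the product `V` of the
varieties with the function fields `F i`, `i < k`, of dimension `m i`, and of the curve with the
function field `F k`, i.e. `K` is the compositum and its transcendence degree is `∑ m i + 1`. Let `BX i`
be the places of `F i` without centre on the open variety `X° i`, and `B` a finite set of points of the
curve. Let `L ⊆ K` be the function field of a variety `W` such that the extension is finite, and let
`W°` be an open variety with function field `L` and boundary `BW` which is the image of the product of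
the `X° i` and the open curve under a proper map. Suppose that for all `i < k` the logarithmic canonical
forms of `X° i` separate `2 d i` points, where `d i` is the degree over `W_i` of the image of `V` in the
product of `W_i` and `X i`. Let `a` be the function of the multiplicities of a divisor `A` along the
prime divisors over `W`. If `r (K_W + D_W) - A` is pseudo-effective for some `r ≥ 1` and `κ(A) ≥ l` then
`κ(K_W + D_W) ≥ l`. -/
theorem result :
    (∀ (M n q m D N r : ℕ) (E : Type) [Field E] [Algebra ℂ E]
      (F : Fin q → MvPolynomial (Fin (M + 2)) ℂ) (d : Fin q → ℕ) (x : Fin (M + 2) → E),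
      SmoothCI F d x → 1 ≤ n → Algebra.trdeg ℂ E = n → n + q = M + 1 → m + M + 2 = ∑ i, d i →
      (∀ i, d i ≤ D) → 1 ≤ D → 1 ≤ M → 7 * N + 4 ≤ m → (M + 1) * N < m + M + 2 →
      D + N ≤ m + 2 → r < (N + 1) * (m + 2 - N) → ∀ BX : Place ℂ E → Prop,
      SeparatesPoints E n BX r) ∧
    (∀ (E : Type) [Field E] [Algebra ℂ E] [IsFF ℂ E] (r : ℕ),
      (∀ y : E, Transcendental ℂ y → r < finrank (IntermediateField.adjoin ℂ {y}) E) →
      ∀ BX : Place ℂ E → Prop, SeparatesPoints E 1 BX r) ∧
    ∀ (k : ℕ) (m : Fin k → ℕ) (K : Type) [Field K] [Algebra ℂ K] [Algebra.EssFiniteType ℂ K]
      (F : Fin (k + 1) → IntermediateField ℂ K) [∀ i, Algebra.EssFiniteType ℂ (F i)]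
      [IsFF ℂ (F (Fin.last k))], (⨆ i, F i) = ⊤ →
      (∀ i : Fin k, Algebra.trdeg ℂ (F i.castSucc) = m i) →
      Algebra.trdeg ℂ K = (∑ i, m i + 1 : ℕ) →
      ∀ (BX : ∀ i : Fin k, Place ℂ (F i.castSucc) → Prop) (B : Set (Place ℂ (F (Fin.last k)))),
      B.Finite →
      ∀ (L : Type) [Field L] [Algebra ℂ L] [Algebra L K] [IsScalarTower ℂ L K]
        [FiniteDimensional L K] (BW : Place ℂ L → Prop), IsImageBoundary BX B L BW →
        (∀ i : Fin k, SeparatesPoints (F i.castSucc) (m i) (BX i) (2 * deg F L i.castSucc)) →
        ∀ (r : ℕ) (a : Place ℂ L → ℤ), 1 ≤ r → PsefRest L (∑ i, m i + 1) r BW a →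
          ∀ l : ℕ, DivKodGe L (∑ i, m i + 1) a l → KodGe ℂ L (∑ i, m i + 1) BW l := by
  refine ⟨?_, ?_, ?_⟩
  · intro M n q m D N r E _ _ F d x h hn hE hq hm hD hD1 hM h1 h2 h3 h4 BX
    exact SeparatesPoints.of_regular (Pool.Agent.L0h18.EF.separates_of_factor
      (g := (N + 1) * (m + 2 - N))
      (Or.inl ⟨M, m, D, N, x, lowDegree_of_smoothCI fCIC fCIA h hn hE hq hm hD hD1, hM, h1, h2, h3,
        le_rfl⟩) h4) BX
  · intro E _ _ _ r h BX
    exact SeparatesPoints.of_regular (Pool.Agent.L0h18.EF.separates_of_factor (g := r + 1)
      (Or.inr ⟨rfl, inferInstance, fun y hy => h y hy⟩) (Nat.lt_succ_self r)) BX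
  · intro k m K _ _ _ F _ _ hF hm hK BX B hB L _ _ _ _ _ BW hBW hX r a hr ha l hl
    exact Pool.Agent.L0h18.CP.cp_prod m F hF hm hK BX B hB L BW hBW hX hr ha hl

end Pool.Agent.Results.MP_370cf3_ag.OpenProductPairs
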